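import Mathlib

/-! Every large `n` is `x + y` with `2 ^ x + y` having few distinct prime factors. -/

namespace Pool.Agent.MP_fc7299_nt.EN

open Finset Filter

def A (n x : ℕ) : ℤ := 2 ^ x + n - x

def E (g h : ℕ) : ℤ := g * (2 ^ h - 1) - h * (2 ^ g - 1)

def R (n L p : ℕ) : Finset ℕ := (Icc 1 L).filter fun x => (p : ℤ) ∣ A n x

def PR (a b : ℕ) : Finset ℕ := (Ioc a b).filter Nat.Prime

theorem sid {p n x x' h : ℕ} (hp : p.Prime) (h1 : (p : ℤ) ∣ A n x) (h2 : (p : ℤ) ∣ A n (x + h))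
    (h3 : (p : ℤ) ∣ A n x') (h4 : (p : ℤ) ∣ A n (x' + h)) :
    (p : ℤ) ∣ h ∨ (p : ℤ) ∣ (x : ℤ) - x' := by
  have e2 : (p : ℤ) ∣ (2 ^ h - 1) * ((x : ℤ) - x') := by
    refine (dvd_sub (dvd_sub (dvd_sub h2 h1) (dvd_sub h4 h3))
      ((dvd_sub h1 h3).mul_left (2 ^ h - 1))).trans (dvd_of_eq ?_)
    simp only [A, pow_add, Nat.cast_add]
    ring
  refine ((Nat.prime_iff_prime_int.1 hp).dvd_or_dvd e2).imp_left fun h5 => ?_
  refine (dvd_sub (h5.mul_left (2 ^ x)) (dvd_sub h2 h1)).trans (dvd_of_eq ?_)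
  simp only [A, pow_add, Nat.cast_add]
  ring

theorem tri {p n x g h : ℕ} (hp : p.Prime) (h2 : 2 < p) (h1 : (p : ℤ) ∣ A n x)
    (hg : (p : ℤ) ∣ A n (x + g)) (hh : (p : ℤ) ∣ A n (x + h)) : (p : ℤ) ∣ E g h := by
  have hp' := Nat.prime_iff_prime_int.1 hp
  have e : (p : ℤ) ∣ 2 ^ x * E g h := by
    refine (dvd_sub ((dvd_sub hh h1).mul_left g) ((dvd_sub hg h1).mul_left h)).trans (dvd_of_eq ?_)
    simp only [A, E, pow_add, Nat.cast_add]
    ring
  refine (hp'.dvd_or_dvd e).resolve_left fun h5 => ?_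
  have := Int.le_of_dvd two_pos (hp'.dvd_of_dvd_pow h5)
  omega

theorem E_pos {g h : ℕ} (hg : 0 < g) (hh : g < h) : 0 < E g h := by
  have st : ∀ k, g ≤ k → E g k < E g (k + 1) := fun k hk => by
    have h1 : (2 : ℤ) ^ g ≤ 2 ^ k := pow_le_pow_right₀ one_le_two hk
    have h2 : (1 : ℤ) ≤ g := by exact_mod_cast hg
    have h3 : (0 : ℤ) < 2 ^ k := by positivity
    simp only [E, pow_succ, Nat.cast_add, Nat.cast_one]
    nlinarith
  induction h, hh using Nat.le_induction with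
  | base => simpa [E] using st g le_rfl
  | succ k hk ih => exact ih.trans (st k (by omega))

theorem E_pf {g h H : ℕ} (hg : g < h) (hh : h < H) (h0 : 0 < g) :
    #(E g h).natAbs.primeFactors ≤ 2 * H := by
  have hp := E_pos h0 hg
  have hm : 0 < (E g h).natAbs := Int.natAbs_pos.2 hp.ne'
  have h1 : 2 ^ #(E g h).natAbs.primeFactors ≤ ∏ p ∈ (E g h).natAbs.primeFactors, p :=
    pow_card_le_prod _ _ _ fun p hp => (Nat.prime_of_mem_primeFactors hp).two_le
  have h2 := Nat.le_of_dvd hm (Nat.prod_primeFactors_dvd _)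
  have h3 : (E g h).natAbs ≤ 2 ^ (2 * H) := by
    zify
    rw [abs_of_pos hp, two_mul, pow_add]
    have a1 : (g : ℤ) ≤ 2 ^ H := by exact_mod_cast (hg.trans (hh.trans H.lt_two_pow_self)).le
    have a2 : (2 : ℤ) ^ h ≤ 2 ^ H := pow_le_pow_right₀ one_le_two hh.le
    have a3 : (1 : ℤ) ≤ 2 ^ g := one_le_pow₀ one_le_two
    have a4 : (1 : ℤ) ≤ 2 ^ h := one_le_pow₀ one_le_two
    have a5 : (0 : ℤ) ≤ h * (2 ^ g - 1) := mul_nonneg (by positivity) (by linarith)
    have a6 : (g : ℤ) * (2 ^ h - 1) ≤ 2 ^ H * 2 ^ H :=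
      mul_le_mul a1 (by linarith) (by linarith) (by positivity)
    simp only [E]
    linarith
  exact (Nat.pow_le_pow_iff_right one_lt_two).1 (h1.trans (h2.trans h3))

def Pat (H : ℕ) : Finset (ℕ × ℕ) := (range H ×ˢ range H).filter fun v => 0 < v.1 ∧ v.1 < v.2

theorem win (S : Finset ℕ) {L H : ℕ} (hH : 0 < H) (hS : ∀ x ∈ S, x ≤ L) :
    #(S.filter fun x => ¬ ∃ v ∈ Pat H, x + v.1 ∈ S ∧ x + v.2 ∈ S) ≤ 2 * (L / H + 1) := by
  have := card_le_mul_card_image_of_maps_to (f := fun x => x / H) (t := range (L / H + 1))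
    (s := S.filter fun x => ¬ ∃ v ∈ Pat H, x + v.1 ∈ S ∧ x + v.2 ∈ S)
    (fun x hx => mem_range.2 (Nat.lt_succ_of_le (Nat.div_le_div_right (hS x (mem_filter.1 hx).1))))
    2 fun j _ => ?_
  · simpa using this
  by_contra hc
  obtain ⟨a, b, c, ha, hb, hc, h1, h2, h3⟩ := two_lt_card_iff.1 (not_le.1 hc)
  have key : ∀ a b c : ℕ, a ∈ S → b ∈ S → c ∈ S → a / H = j → c / H = j → a < b → b < c →
      ∃ v ∈ Pat H, a + v.1 ∈ S ∧ a + v.2 ∈ S := fun a b c _ hb hc e1 e2 l1 l2 => by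
    have d1 := Nat.div_add_mod a H
    have d2 := Nat.div_add_mod c H
    have d3 := Nat.mod_lt c hH
    rw [e1] at d1
    rw [e2] at d2
    refine ⟨(b - a, c - a), ?_, by rwa [Nat.add_sub_cancel' l1.le],
      by rwa [Nat.add_sub_cancel' (l1.trans l2).le]⟩
    simp only [Pat, mem_filter, mem_product, mem_range]
    omega
  simp only [mem_filter] at ha hb hc
  rcases lt_or_gt_of_ne h1 with k1 | k1 <;> rcases lt_or_gt_of_ne h2 with k2 | k2 <;>
    rcases lt_or_gt_of_ne h3 with k3 | k3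
  · exact ha.1.2 (key a b c ha.1.1 hb.1.1 hc.1.1 ha.2 hc.2 k1 k3)
  · exact ha.1.2 (key a c b ha.1.1 hc.1.1 hb.1.1 ha.2 hb.2 k2 k3)
  · omega
  · exact hc.1.2 (key c a b hc.1.1 ha.1.1 hb.1.1 hc.2 hb.2 k2 k1)
  · exact hb.1.2 (key b a c hb.1.1 ha.1.1 hc.1.1 hb.2 hc.2 k1 k2)
  · omega
  · exact hb.1.2 (key b c a hb.1.1 hc.1.1 ha.1.1 hb.2 ha.2 k3 k2)
  · exact hc.1.2 (key c b a hc.1.1 hb.1.1 ha.1.1 hc.2 ha.2 k3 k1)

theorem gap {n L p w g : ℕ} (hp : p.Prime) (hg : 0 < g) (hw : 0 < w) (h1 : g < p) (h2 : w < p) :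
    #((R n L p).filter fun x => x + g ∈ R n L p) ≤ L / w + 1 := by
  rw [← card_range (L / w + 1)]
  refine card_le_card_of_injOn (fun x => x / p) (fun x hx => ?_) fun x hx x' hx' e => ?_
  · have := (mem_Icc.1 (mem_filter.1 (mem_filter.1 hx).1).1).2
    exact mem_coe.2 (mem_range.2 (Nat.lt_succ_of_le
      ((Nat.div_le_div_right this).trans (Nat.div_le_div_left h2.le hw))))
  · have a := mem_filter.1 hx
    have b := mem_filter.1 hx'
    rcases sid hp (mem_filter.1 a.1).2 (mem_filter.1 a.2).2 (mem_filter.1 b.1).2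
      (mem_filter.1 b.2).2 with h | h
    · have := Int.le_of_dvd (by exact_mod_cast hg) h
      omega
    · have h' : x' % p = x % p := (Nat.modEq_iff_dvd).2 h
      have d1 := Nat.div_add_mod x p
      have d2 := Nat.div_add_mod x' p
      simp only at e
      rw [e] at d1
      omega

theorem one {n L p w H : ℕ} (hp : p.Prime) (hH : 0 < H) (h1 : H ≤ w) (h2 : w < p) :
    #(R n L p) ≤ 2 * (L / H + 1) + (L / w + 1) * #((Pat H).filter fun v => (p : ℤ) ∣ E v.1 v.2) := by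
  rw [← card_filter_add_card_filter_not (s := R n L p)
    fun x => ∃ v ∈ Pat H, x + v.1 ∈ R n L p ∧ x + v.2 ∈ R n L p, add_comm]
  refine add_le_add (win _ hH fun x hx => (mem_Icc.1 (mem_filter.1 hx).1).2) ?_
  rw [mul_comm]
  refine le_trans (card_le_card (t := ((Pat H).filter fun v => (p : ℤ) ∣ E v.1 v.2).biUnion
    fun v => (R n L p).filter fun x => x + v.1 ∈ R n L p) fun x hx => ?_)
    (card_biUnion_le_card_mul _ _ _ fun v hv => ?_)
  · obtain ⟨hx, v, hv, a, b⟩ := mem_filter.1 hx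
    have hv' := hv
    simp only [Pat, mem_filter, mem_product, mem_range] at hv'
    exact mem_biUnion.2 ⟨v, mem_filter.2 ⟨hv, tri hp (by omega) (mem_filter.1 hx).2
      (mem_filter.1 a).2 (mem_filter.1 b).2⟩, mem_filter.2 ⟨hx, a⟩⟩
  · have hv' := (mem_filter.1 hv).1
    simp only [Pat, mem_filter, mem_product, mem_range] at hv'
    exact gap hp hv'.2.1 (by omega) (by omega) h2

theorem tot (n L y : ℕ) {w H : ℕ} (hH : 0 < H) (h1 : H ≤ w) :
    ∑ p ∈ PR w y, #(R n L p) ≤ y * (2 * (L / H + 1)) + (L / w + 1) * (H * H * (2 * H)) := by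
  refine (sum_le_sum fun p hp => one (n := n) (L := L) (mem_filter.1 hp).2 hH h1
    (mem_Ioc.1 (mem_filter.1 hp).1).1).trans ?_
  rw [sum_add_distrib, sum_const, smul_eq_mul, ← mul_sum]
  refine add_le_add (Nat.mul_le_mul_right _ ((card_filter_le _ _).trans (by simp)))
    (Nat.mul_le_mul_left _ ?_)
  simp only [card_filter]
  rw [sum_comm]
  refine (sum_le_card_nsmul _ _ (2 * H) fun v hv => ?_).trans ?_
  · simp only [Pat, mem_filter, mem_product, mem_range] at hv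
    rw [← card_filter]
    refine (card_le_card fun p hp => ?_).trans (E_pf hv.2.2 hv.1.2 hv.2.1)
    exact Nat.mem_primeFactors.2 ⟨(mem_filter.1 (mem_filter.1 hp).1).2,
      Int.natCast_dvd.1 (mem_filter.1 hp).2, Int.natAbs_ne_zero.2 (E_pos hv.2.1 hv.2.2).ne'⟩
  · exact Nat.mul_le_mul_right _ ((card_filter_le _ _).trans (by simp))

theorem small (n : ℕ) {L m k : ℕ} (hm : 0 < m) (hL : m ^ (3 * k + 3) ≤ L) :
    m * ∑ p ∈ PR 0 (m ^ (5 * k + 2)), #(R n L p) ≤ 17 * L * L := by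
  have hs : PR 0 (m ^ (5 * k + 2)) ⊆
      PR 0 (m ^ (k + 1)) ∪ (PR (m ^ (k + 1)) L ∪ PR L (m ^ (5 * k + 2))) := fun p hp => by
    simp only [PR, mem_union, mem_filter, mem_Ioc] at hp ⊢
    have := hp.2
    by_cases a : p ≤ m ^ (k + 1)
    · exact Or.inl ⟨⟨hp.1.1, a⟩, this⟩
    by_cases b : p ≤ L
    · exact Or.inr (Or.inl ⟨⟨by omega, b⟩, this⟩)
    · exact Or.inr (Or.inr ⟨⟨by omega, hp.1.2⟩, this⟩)
  have le : ∀ j, j ≤ 3 * k + 3 → m ^ j ≤ L := fun j hj => (Nat.pow_le_pow_right hm hj).trans hL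
  have L0 : 0 < L := (Nat.pow_pos hm).trans_le hL
  have u : ∀ (s t : Finset ℕ) (f : ℕ → ℕ), ∑ p ∈ s ∪ t, f p ≤ ∑ p ∈ s, f p + ∑ p ∈ t, f p :=
    fun s t f => by rw [← sum_union_inter]; omega
  have t1 : ∑ p ∈ PR 0 (m ^ (k + 1)), #(R n L p) ≤ m ^ (k + 1) * L :=
    (sum_le_card_nsmul _ _ L fun p _ => (card_filter_le _ _).trans (by simp)).trans
      (Nat.mul_le_mul_right _ ((card_filter_le _ _).trans (by simp)))
  have t2 := tot n L L (Nat.pow_pos (n := k + 1) hm) le_rfl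
  have t3 := tot n L (m ^ (5 * k + 2)) (Nat.pow_pos (n := 2 * k + 1) hm) (le _ (by omega))
  have d : ∀ j, j ≤ 3 * k + 3 → m ^ j * (L / m ^ j + 1) ≤ 2 * L := fun j hj => by
    have := Nat.mul_div_le L (m ^ j)
    have := le j hj
    rw [mul_add]
    omega
  rw [Nat.div_self L0] at t3
  have d1 := d (k + 1) (by omega)
  have d2 := d (2 * k + 1) (by omega)
  have b1 : m * (m ^ (k + 1) * L) ≤ L * L := by
    rw [← mul_assoc, ← pow_succ']
    exact Nat.mul_le_mul_right _ (le _ (by omega))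
  have b2 : m * (L * (2 * (L / m ^ (k + 1) + 1))) ≤ 4 * L * L :=
    calc _ = 2 * L * (m * (L / m ^ (k + 1) + 1)) := by ring
      _ ≤ 2 * L * (2 * L) := Nat.mul_le_mul_left _ ((Nat.mul_le_mul_right _
        (Nat.le_self_pow (by omega) m)).trans d1)
      _ = _ := by ring
  have b3 : m * ((L / m ^ (k + 1) + 1) * (m ^ (k + 1) * m ^ (k + 1) * (2 * m ^ (k + 1)))) ≤
      4 * L * L :=
    calc _ = 2 * m ^ (2 * k + 3) * (m ^ (k + 1) * (L / m ^ (k + 1) + 1)) := by ring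
      _ ≤ 2 * L * (2 * L) := Nat.mul_le_mul (Nat.mul_le_mul_left _ (le _ (by omega))) d1
      _ = _ := by ring
  have b4 : m * (m ^ (5 * k + 2) * (2 * (L / m ^ (2 * k + 1) + 1))) ≤ 4 * L * L :=
    calc _ = 2 * m ^ (3 * k + 2) * (m ^ (2 * k + 1) * (L / m ^ (2 * k + 1) + 1)) := by ring
      _ ≤ 2 * L * (2 * L) := Nat.mul_le_mul (Nat.mul_le_mul_left _ (le _ (by omega))) d2
      _ = _ := by ring
  have b5 : m * ((1 + 1) * (m ^ (2 * k + 1) * m ^ (2 * k + 1) * (2 * m ^ (2 * k + 1)))) ≤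
      4 * L * L :=
    calc _ = 4 * m ^ (3 * k + 2) * m ^ (3 * k + 2) := by ring
      _ ≤ _ := Nat.mul_le_mul (Nat.mul_le_mul_left _ (le _ (by omega))) (le _ (by omega))
  have := Nat.mul_le_mul_left m ((sum_le_sum_of_subset hs).trans ((u _ _ _).trans
    (add_le_add t1 ((u _ _ _).trans (add_le_add t2 t3)))))
  rw [mul_add, mul_add, mul_add, mul_add] at this
  linarith

theorem pick (n : ℕ) {L m k : ℕ} (hm : 0 < m) (hL : m ^ (3 * k + 3) ≤ L) :
    ∃ x ∈ Icc 1 L, m * #((PR 0 (m ^ (5 * k + 2))).filter fun p : ℕ => (p : ℤ) ∣ A n x) ≤ 17 * L := by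
  have L0 : 0 < L := (Nat.pow_pos hm).trans_le hL
  refine exists_le_of_sum_le ⟨1, by simp; omega⟩ ?_
  have := small n hm hL
  simp only [R, card_filter] at this
  rw [sum_comm] at this
  simp only [card_filter, ← mul_sum, sum_const, Nat.card_Icc, smul_eq_mul, Nat.add_sub_cancel]
  linarith

theorem big {a y : ℕ} (ha : 0 < a) :
    (#(a.primeFactors.filter fun p => ¬ p ≤ y) : ℝ) * Real.log y ≤ Real.log a := by
  rcases Nat.eq_zero_or_pos y with rfl | hy
  · simpa using Real.log_natCast_nonneg a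
  have h1 : y ^ #(a.primeFactors.filter fun p => ¬ p ≤ y) ≤
      ∏ p ∈ a.primeFactors.filter fun p => ¬ p ≤ y, p :=
    pow_card_le_prod _ _ _ fun p hp => (not_le.1 (mem_filter.1 hp).2).le
  have h2 := Nat.le_of_dvd ha ((prod_dvd_prod_of_subset _ _ (fun p => p)
    (filter_subset (fun p => ¬ p ≤ y) _)).trans (Nat.prod_primeFactors_dvd a))
  rw [← Real.log_pow]
  exact Real.log_le_log (by positivity) (by exact_mod_cast h1.trans h2)

theorem num {ε : ℝ} (hε : 0 < ε) : ∃ k : ℕ, ∀ᶠ l : ℝ in atTop, 0 < l ∧ 0 < l / (3 * k + 3) - 1 ∧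
    ∀ X μ i j : ℝ, l ≤ X → l / (3 * k + 3) - 1 ≤ μ → 0 ≤ i → 0 ≤ j → Real.exp μ * i ≤ 34 * X →
      j * ((5 * k + 2) * μ) ≤ X + 1 → i + j ≤ (3 / 5 + ε) * X / l := by
  obtain ⟨k, hk⟩ := exists_nat_ge (2 / ε)
  refine ⟨k, ?_⟩
  have k0 : (0 : ℝ) ≤ k := k.cast_nonneg
  rw [div_le_iff₀ hε] at hk
  obtain ⟨K, hK⟩ : ∃ K : ℝ, K = 3 * k + 3 := ⟨_, rfl⟩
  have K3 : 3 ≤ K := by linarith
  rw [← hK]
  filter_upwards [eventually_ge_atTop (2 * K), eventually_ge_atTop (600 * K ^ 2 / ε),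
    eventually_ge_atTop (4 * (K + K * (K + ε * (5 * k + 2))) / ε)] with l l1 l2 l3
  have l0 : 0 < l := by linarith
  have q : l / (2 * K) ≤ l / K - 1 := by
    have : 1 ≤ l / (2 * K) := (one_le_div (by linarith)).2 l1
    have : l / K = 2 * (l / (2 * K)) := by field_simp
    linarith
  have q0 : 0 < l / (2 * K) := by positivity
  refine ⟨l0, by linarith, fun X μ i j hX hμ hi hj a b => ?_⟩
  rw [div_le_iff₀ hε] at l2 l3
  have X0 : 0 < X := by linarith
  have a1 : i * l ≤ ε / 2 * X := by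
    have e1 : (l / (2 * K)) ^ 2 / 2 ≤ Real.exp μ := by
      have := Real.quadratic_le_exp_of_nonneg (x := μ) (by linarith)
      have : (l / (2 * K)) ^ 2 ≤ μ ^ 2 := pow_le_pow_left₀ q0.le (by linarith) 2
      linarith
    have e2 : (l / (2 * K)) ^ 2 / 2 * i ≤ 34 * X := (mul_le_mul_of_nonneg_right e1 hi).trans a
    have e3 : (l / (2 * K)) ^ 2 / 2 * i = l * (i * l) / (8 * K ^ 2) := by field_simp; ring
    rw [e3, div_le_iff₀ (by positivity)] at e2
    refine le_of_mul_le_mul_left (e2.trans ?_) l0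
    nlinarith [mul_le_mul_of_nonneg_right l2 X0.le, sq_nonneg K]
  have b1 : j * l ≤ (3 / 5 + ε / 2) * X := by
    have e1 : j * ((5 * k + 2) * (l / K - 1)) ≤ X + 1 :=
      (mul_le_mul_of_nonneg_left (mul_le_mul_of_nonneg_left hμ (by positivity)) hj).trans b
    have e2 : j * ((5 * k + 2) * (l / K - 1)) = j * ((5 * k + 2) * (l - K)) / K := by field_simp
    rw [e2, div_le_iff₀ (by positivity)] at e1
    have e3 : K ≤ (3 / 5 + ε / 4) * (5 * k + 2) := by nlinarith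
    have e4 : K * (l + 1) ≤ (3 / 5 + ε / 2) * ((5 * k + 2) * (l - K)) := by
      have : 0 ≤ K * (ε * (5 * k + 2)) := by positivity
      have : 0 ≤ l * ε * k := by positivity
      have : K * (5 * k + 2) * (3 / 5) ≤ K * K := by nlinarith
      nlinarith [mul_le_mul_of_nonneg_right e3 l0.le]
    have e5 : 0 < (5 * k + 2) * (l - K) := mul_pos (by positivity) (by linarith)
    refine le_of_mul_le_mul_right ?_ e5
    calc j * l * ((5 * k + 2) * (l - K)) = l * (j * ((5 * k + 2) * (l - K))) := by ring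
      _ ≤ l * ((X + 1) * K) := mul_le_mul_of_nonneg_left e1 l0.le
      _ ≤ X * (K * (l + 1)) := by nlinarith [mul_le_mul_of_nonneg_right hX (by linarith : 0 ≤ K)]
      _ ≤ X * ((3 / 5 + ε / 2) * ((5 * k + 2) * (l - K))) := mul_le_mul_of_nonneg_left e4 X0.le
      _ = _ := by ring
  rw [le_div_iff₀ l0]
  linarith

theorem main (ε : ℝ) (hε : 0 < ε) : ∀ᶠ n : ℕ in atTop, ∃ x y : ℕ, 0 < x ∧ 0 < y ∧ n = x + y ∧
    (#(2 ^ x + y).primeFactors : ℝ) ≤ (3 / 5 + ε) * Real.log n / Real.log (Real.log n) := by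
  obtain ⟨k, hk⟩ := num hε
  have t1 : Tendsto (fun n : ℕ => Real.log n) atTop atTop :=
    Real.tendsto_log_atTop.comp tendsto_natCast_atTop_atTop
  filter_upwards [(Real.tendsto_log_atTop.comp t1).eventually hk, t1.eventually_ge_atTop 4,
    eventually_gt_atTop 0] with n ⟨l0, l1, h⟩ hX n0
  simp only [Function.comp] at l0 l1 h
  obtain ⟨L, hL⟩ : ∃ L, L = Nat.log 2 n := ⟨_, rfl⟩
  have p1 : 2 ^ L ≤ n := hL ▸ Nat.pow_log_le_self 2 n0.ne'
  have p2 : n < 2 ^ (L + 1) := hL ▸ Nat.lt_pow_succ_log_self one_lt_two n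
  have g1 := Real.log_two_gt_d9
  have g2 := Real.log_two_lt_d9
  have L0 : (0 : ℝ) ≤ L := L.cast_nonneg
  have r1 : L * Real.log 2 ≤ Real.log n := by
    rw [← Real.log_pow]
    exact Real.log_le_log (by positivity) (by exact_mod_cast p1)
  have r2 : Real.log n ≤ (L + 1) * Real.log 2 := by
    have := Real.log_le_log (by positivity) (show (n : ℝ) ≤ 2 ^ (L + 1) by exact_mod_cast p2.le)
    rwa [Real.log_pow, Nat.cast_add, Nat.cast_one] at this
  have r3 : Real.log n ≤ L := by nlinarith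
  have r4 : (L : ℝ) ≤ 2 * Real.log n := by nlinarith
  have L1 : 1 ≤ L := by exact_mod_cast (show (1 : ℝ) ≤ L by linarith)
  have ex : ∃ m : ℕ, L < (m + 1) ^ (3 * k + 3) :=
    ⟨L, (Nat.lt_succ_self L).trans_le (Nat.le_self_pow (by omega) _)⟩
  obtain ⟨m, hm⟩ : ∃ m, m = Nat.find ex := ⟨_, rfl⟩
  have m1 : L < (m + 1) ^ (3 * k + 3) := hm ▸ Nat.find_spec ex
  have m0 : 0 < m := Nat.pos_of_ne_zero fun e => by simp [e] at m1; omega
  have m2 : m ^ (3 * k + 3) ≤ L := by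
    have := Nat.find_min ex (m := m - 1) (by omega)
    rwa [Nat.sub_add_cancel m0, not_lt] at this
  have m0' : (0 : ℝ) < m := by exact_mod_cast m0
  have m3 : Real.log (Real.log n) / (3 * k + 3) - 1 ≤ Real.log m := by
    have e1 : (L : ℝ) ≤ (2 * m) ^ (3 * k + 3) := by
      exact_mod_cast m1.le.trans (Nat.pow_le_pow_left (by omega) _)
    have e2 := Real.log_le_log (by linarith) (r3.trans e1)
    rw [Real.log_pow, Real.log_mul two_ne_zero m0'.ne'] at e2
    push_cast at e2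
    rw [sub_le_iff_le_add, div_le_iff₀ (by positivity)]
    nlinarith [k.cast_nonneg (α := ℝ)]
  obtain ⟨x, hx, hc⟩ := pick n m0 m2
  have x1 := mem_Icc.1 hx
  have x2 : x < n := x1.2.trans_lt (L.lt_two_pow_self.trans_le p1)
  have x3 : 2 ^ x ≤ n := (Nat.pow_le_pow_right two_pos x1.2).trans p1
  refine ⟨x, n - x, x1.1, by omega, by omega, ?_⟩
  have a0 : 0 < 2 ^ x + (n - x) := by positivity
  rw [← card_filter_add_card_filter_not (s := (2 ^ x + (n - x)).primeFactors)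
    fun p => p ≤ m ^ (5 * k + 2), Nat.cast_add]
  refine h _ (Real.log m) _ _ (by linarith [Real.log_le_sub_one_of_pos (show 0 < Real.log n by linarith)])
    m3 (by positivity) (by positivity) ?_ ?_
  · rw [Real.exp_log m0']
    have : m * #((2 ^ x + (n - x)).primeFactors.filter fun p => p ≤ m ^ (5 * k + 2)) ≤ 17 * L := by
      refine (Nat.mul_le_mul_left m (card_le_card fun p hp => ?_)).trans hc
      obtain ⟨a, b⟩ := mem_filter.1 hp
      have c := Nat.mem_primeFactors.1 a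
      refine mem_filter.2 ⟨mem_filter.2 ⟨mem_Ioc.2 ⟨c.1.pos, b⟩, c.1⟩, ?_⟩
      have := Int.natCast_dvd_natCast.2 c.2.1
      rwa [Nat.cast_add, Nat.cast_sub x2.le, Nat.cast_pow, ← add_sub_assoc] at this
    have : (m : ℝ) * #((2 ^ x + (n - x)).primeFactors.filter fun p => p ≤ m ^ (5 * k + 2)) ≤
      17 * L := by exact_mod_cast this
    linarith
  · have e1 := big (y := m ^ (5 * k + 2)) a0
    have e2 : Real.log (2 ^ x + (n - x) : ℕ) ≤ Real.log (2 * n) :=
      Real.log_le_log (by exact_mod_cast a0) (by exact_mod_cast (by omega : 2 ^ x + (n - x) ≤ 2 * n))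
    rw [Real.log_mul two_ne_zero (by positivity)] at e2
    rw [Nat.cast_pow, Real.log_pow] at e1
    push_cast at e1 e2 ⊢
    linarith

end Pool.Agent.MP_fc7299_nt.EN
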